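import Pool.Agent.N299.ND.Stm2
import Pool.Agent.N299.Base

/-!
Project ND (helper299), part BRN: from the nuclear dimension of a C*-algebra to approximations of
the corresponding ideal of a unital C*-algebra.  By helper394.
-/

set_option autoImplicit false

open scoped Topology Matrix.Norms.L2Operator
open Filter

noncomputable section

namespace Pool.Agent.N394.ND

open Pool.Agent.N299 Pool.Agent.N299.ND Pool.Agent.N299.ND.Pub

lemma norm_le_one_of_pos {B : Type} [CStarAlgebra B] {e : B} (h1 : Pos e) (h2 : Pos (1 - e)) :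
    ‖e‖ ≤ 1 := by
  let _ : PartialOrder B := CStarAlgebra.spectralOrder B
  let _ : StarOrderedRing B := CStarAlgebra.spectralOrderedRing B
  rw [pos_iff] at h1 h2
  exact (CStarAlgebra.norm_le_one_iff_of_nonneg e h1).mpr (sub_nonneg.mp h2)

/-- an element of a closed ideal is positive if its compressions are -/
lemma pos_of_compress (hAU : S_AU) {B : Type} [CStarAlgebra B] {I : Submodule ℂ B} (hI : Idl I)
    {P : B} (hP : P ∈ I) (h : ∀ e ∈ I, star e = e → Pos (e * P * e)) : Pos P := by
  have hmem : P ∈ closure {x : B | Pos x} := by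
    rw [Metric.mem_closure_iff]
    intro ε hε
    obtain ⟨e, heI, he1, he2, he3⟩ := hAU B I hI {P} (ε / 4)
      (by intro a ha; rw [Finset.mem_singleton] at ha; rw [ha]; exact hP) (by linarith)
    obtain ⟨h1, h2⟩ := he3 P (Finset.mem_singleton_self P)
    refine ⟨e * P * e, h e heI he1.sa, ?_⟩
    have hn := norm_le_one_of_pos he1 he2
    rw [dist_comm, dist_eq_norm]
    have h3 : e * P * e - P = e * (P * e - P) + (e * P - P) := by
      rw [mul_sub, mul_assoc]
      abel
    rw [h3]
    calc ‖e * (P * e - P) + (e * P - P)‖ ≤ ‖e * (P * e - P)‖ + ‖e * P - P‖ := norm_add_le _ _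
      _ ≤ ‖e‖ * ‖P * e - P‖ + ‖e * P - P‖ := by gcongr; exact norm_mul_le _ _
      _ ≤ 1 * (ε / 4) + ε / 4 := by gcongr
      _ < ε := by linarith
  rwa [isClosed_pos.closure_eq] at hmem

theorem t_BRN (hAU : S_AU) : S_BRN := by
  classical
  intro A B _ _ ι I hinc m hnuc F ε hF hε
  have hinj := hinc.inj
  have hiso : ∀ a : A, ‖ι a‖ = ‖a‖ := fun a =>
    (AddMonoidHomClass.isometry_iff_norm ι).mp (NonUnitalStarAlgHom.isometry ι hinj) a
  have hmem : ∀ a : A, ι a ∈ I := fun a => (hinc.mem _).mpr ⟨a, rfl⟩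
  -- the linear map `ι` and a left inverse
  let ιl : A →ₗ[ℂ] B :=
    { toFun := ι
      map_add' := map_add ι
      map_smul' := fun c a => map_smul ι c a }
  have hιl : ∀ a, ιl a = ι a := fun _ => rfl
  obtain ⟨g, hg⟩ := LinearMap.exists_leftInverse_of_injective ιl
    (LinearMap.ker_eq_bot.mpr hinj)
  have hgι : ∀ a, g (ι a) = a := fun a => LinearMap.congr_fun hg a
  have hιg : ∀ x ∈ I, ι (g x) = x := by
    intro x hx
    obtain ⟨a, rfl⟩ := (hinc.mem x).mp hx
    rw [hgι]
  obtain ⟨k, n, c, ψ, φ, hψ, hφ, hoz, horth, happ⟩ := hnuc (F.image g) ε hε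
  refine ⟨k, n, c, fun j => ψ j ∘ₗ g, fun j => ιl ∘ₗ φ j, ⟨?_, ?_⟩, ?_⟩
  · intro j
    have hφ' : ∀ x, (ιl ∘ₗ φ j) x = ι (φ j x) := fun _ => rfl
    have hψ' : ∀ x, (ψ j ∘ₗ g) x = ψ j (g x) := fun _ => rfl
    refine ⟨?_, ?_, ?_, ?_, ?_, ?_⟩
    · intro r a b ha
      obtain ⟨d, hd⟩ := (hψ j).cp r (fun i => g (a i)) b
      refine ⟨d, ?_⟩
      rw [← hd]
      refine Finset.sum_congr rfl fun i _ => Finset.sum_congr rfl fun i' _ => ?_
      have h1 : star (a i) * a i' = ι (star (g (a i)) * g (a i')) := by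
        rw [map_mul, map_star, hιg _ (ha i), hιg _ (ha i')]
      rw [hψ', h1, hgι]
    · intro a ha
      rw [hψ']
      refine ((hψ j).contr _).trans ?_
      rw [← hiso, hιg a ha]
    · intro r a b
      apply pos_of_compress hAU hinc.idl
      · refine I.sum_mem fun i _ => I.sum_mem fun i' _ => ?_
        rw [hφ']
        exact hinc.idl.mulR _ (hinc.idl.mulL _ (hmem _) _) _
      · intro e he hes
        have hb : ∀ i, b i * e ∈ I := fun i => hinc.idl.mulL e he (b i)
        obtain ⟨d, hd⟩ := (hφ j).cp r a (fun i => g (b i * e))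
        refine ⟨ι d, ?_⟩
        have h1 : e * (∑ i, ∑ i', star (b i) * (ιl ∘ₗ φ j) (star (a i) * a i') * b i') * e =
            ∑ i, ∑ i', star (b i * e) * ι (φ j (star (a i) * a i')) * (b i' * e) := by
          rw [Finset.mul_sum, Finset.sum_mul]
          refine Finset.sum_congr rfl fun i _ => ?_
          rw [Finset.mul_sum, Finset.sum_mul]
          refine Finset.sum_congr rfl fun i' _ => ?_
          rw [hφ', star_mul, hes]
          simp only [mul_assoc]
        rw [h1, ← map_star, ← map_mul, ← hd, map_sum]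
        refine Finset.sum_congr rfl fun i _ => ?_
        rw [map_sum]
        refine Finset.sum_congr rfl fun i' _ => ?_
        rw [map_mul ι, map_mul ι, map_star ι, hιg _ (hb i), hιg _ (hb i')]
    · intro x
      rw [hφ', hiso]
      exact (hφ j).contr x
    · rintro x y ⟨u, rfl⟩ ⟨w, rfl⟩ hxy
      rw [hφ', hφ', ← map_mul, hoz j u w hxy, map_zero]
    · intro x
      exact hmem _
  · intro j j' hjj hc x y
    change ι (φ j x) * ι (φ j' y) = 0
    rw [← map_mul, horth j j' hjj hc, map_zero]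
  · intro a ha
    have h1 : tot (fun j => ψ j ∘ₗ g) (fun j => ιl ∘ₗ φ j) Finset.univ a - a =
        ι (∑ j, φ j (ψ j (g a)) - g a) := by
      rw [map_sub, map_sum, hιg a (hF a ha), tot, LinearMap.sum_apply]
      rfl
    rw [h1, hiso]
    exact (happ (g a) (Finset.mem_image_of_mem g ha)).le

end Pool.Agent.N394.ND
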